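import Pool.Agent.Run7.h171.NL.Com

set_option autoImplicit false

namespace Run7.h171.NL

open Run7.h664.NL
open Finset Filter Topology Pool.Agent.TH91.RF Pool.Agent.TH91.NB Pool.Agent.TH91.LG

theorem St_mem {N : ℕ} {H : Subgroup (Mt N)ˣ} {X : Type*} [MulAction H X] {x0 : X} {u : (Mt N)ˣ}
    (hu : u ∈ H) (h : (⟨u, hu⟩ : H) • x0 = x0) : u ∈ St (H := H) x0 :=
  Subgroup.mem_map.2 ⟨⟨u, hu⟩, MulAction.mem_stabilizer_iff.2 h, rfl⟩

theorem Ex_bdd (N : ℕ) (R : ℝ) :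
    ∃ B : ℝ, ∀ w : Mt N, (∀ i j, |w i j| ≤ R) → ∀ i j, |J887.Ex N w i j| ≤ B := by
  have hcomp : IsCompact {w : Mt N | ∀ i j, |w i j| ≤ R} := by
    have h1 : IsCompact (Set.univ.pi fun _ : Fin N => Set.univ.pi fun _ : Fin N =>
        Set.Icc (-R) R) :=
      isCompact_univ_pi fun _ => isCompact_univ_pi fun _ => isCompact_Icc
    have h2 : {w : Mt N | ∀ i j, |w i j| ≤ R} =
        (Set.univ.pi fun _ : Fin N => Set.univ.pi fun _ : Fin N => Set.Icc (-R) R) := by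
      ext w
      constructor
      · intro h i _ j _
        exact abs_le.1 (h i j)
      · intro h i j
        exact abs_le.2 (h i trivial j trivial)
    rw [h2]
    exact h1
  have hij : ∀ i j : Fin N, ∃ B : ℝ, ∀ w : Mt N, (∀ i j, |w i j| ≤ R) → |J887.Ex N w i j| ≤ B := by
    intro i j
    have hc : Continuous fun w : Mt N => J887.Ex N w i j :=
      ((continuous_apply j).comp (continuous_apply i)).comp J887.Ex_continuous
    obtain ⟨B, hB⟩ := hcomp.exists_bound_of_continuousOn hc.continuousOn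
    exact ⟨B, fun w hw => hB w hw⟩
  choose B hB using hij
  refine ⟨∑ i, ∑ j, |B i j|, fun w hw i j => ?_⟩
  refine (hB i j w hw).trans ((le_abs_self _).trans ?_)
  refine (Finset.single_le_sum (f := fun j => |B i j|) (fun _ _ => abs_nonneg _)
    (Finset.mem_univ j)).trans ?_
  exact Finset.single_le_sum (f := fun i => ∑ j, |B i j|)
    (fun _ _ => Finset.sum_nonneg fun _ _ => abs_nonneg _) (Finset.mem_univ i)

theorem t_GEN : S_GEN := by
  intro N C H X _ _ x0 D x hx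
  -- the group
  let Γ : Subgroup (Mt N)ˣ :=
    { carrier := {u | u ∈ St (H := H) x0 ∧ ∃ ξ ∈ C.k, u = E ξ}
      mul_mem' := by
        rintro a b ⟨ha, ξ, hξ, rfl⟩ ⟨hb, η, hη, rfl⟩
        obtain ⟨z, hz, h⟩ := E_mul_E C.sup C.br hξ hη
        exact ⟨(St (H := H) x0).mul_mem ha hb, z, hz, h⟩
      one_mem' := ⟨(St (H := H) x0).one_mem, 0, C.k.zero_mem, E_zero.symm⟩
      inv_mem' := by
        rintro a ⟨ha, ξ, hξ, rfl⟩
        exact ⟨(St (H := H) x0).inv_mem ha, -ξ, C.k.neg_mem hξ, (E_neg (C.sup ξ hξ)).symm⟩ }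
  obtain ⟨R, hR⟩ := D.bdd
  obtain ⟨B, hB⟩ := Ex_bdd N R
  have h := log_mem_span Γ (by
      rintro γ ⟨_, ξ, hξ, rfl⟩
      exact ⟨ξ, J887.sup_iff.2 (C.sup ξ hξ), E_val (C.sup ξ hξ)⟩) x
    (J887.sup_iff.2 (C.sup x hx)) B (by
      intro n
      have hnx : (n : ℝ) • x ∈ C.k := C.k.smul_mem _ hx
      obtain ⟨c, hc, hcR, hcx⟩ := hR ((⟨E ((n : ℝ) • x), D.mem _ hnx⟩ : H) • x0)
      have hmem : (E ((n : ℝ) • x))⁻¹ * E c ∈ St (H := H) x0 := by
        refine St_mem (H.mul_mem (H.inv_mem (D.mem _ hnx)) (D.mem c hc)) ?_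
        have e : (⟨(E ((n : ℝ) • x))⁻¹ * E c, H.mul_mem (H.inv_mem (D.mem _ hnx)) (D.mem c hc)⟩ : H) =
          (⟨E ((n : ℝ) • x), D.mem _ hnx⟩ : H)⁻¹ * ⟨E c, D.mem c hc⟩ := rfl
        rw [e, mul_smul, hcx, inv_smul_smul]
      obtain ⟨z, hz, hzz⟩ := E_mul_E C.sup C.br (C.k.neg_mem hnx) hc
      rw [E_neg (C.sup _ hnx)] at hzz
      refine ⟨(E ((n : ℝ) • x))⁻¹ * E c, ⟨hmem, z, hz, hzz⟩, fun i j => ?_⟩
      have e : IsNilpotent.exp ((n : ℝ) • x) *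
          (((E ((n : ℝ) • x))⁻¹ * E c : (Mt N)ˣ) : Mt N) = J887.Ex N c := by
        rw [← E_val (C.sup _ hnx), ← Units.val_mul, mul_inv_cancel_left, E_val (C.sup c hc),
          (mF N).exp_eq (C.sup c hc)]
        rfl
      rw [e]
      exact hB c hcR i j)
  refine Submodule.span_mono ?_ h
  rintro y ⟨hy, γ, ⟨hγ, ξ, hξ, rfl⟩, h2⟩
  have e : y = ξ := (mF N).exp_inj (J887.sup_iff.1 hy) (C.sup ξ hξ) (by
    rw [← h2, E_val (C.sup ξ hξ)])
  rw [e]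
  exact ⟨hξ, hγ⟩

end Run7.h171.NL
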