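import Pool.Agent.Run7.h171.NL.GGM
import Pool.Agent.Run7.h171.NL.GEN

set_option autoImplicit false

namespace Run7.h171.NL

open Run7.h664.NL
open Finset Filter Topology Pool.Agent.TH91.RF Pool.Agent.TH91.NB Pool.Agent.TH91.LG

variable {N d : ℕ}

/-- the values as matrices -/
def kap : (ℤ × Fin d → (Mt N)ˣ) →* AF N d where
  toFun u := fun p => (u p : Mt N)
  map_one' := rfl
  map_mul' _ _ := rfl

theorem kap_inj : Function.Injective (kap (N := N) (d := d)) :=
  fun _ _ h => funext fun p => Units.ext (congrFun h p)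

theorem kap_E {M : ℕ} {x : AF N d} (h1 : x ∈ (wtF N d M).F 1) (h3 : ∀ p, x p ∈ (mF N).F 1) :
    kap (fun p => E (x p)) = IsNilpotent.exp x := by
  funext p
  change ((E (x p) : (Mt N)ˣ) : Mt N) = _
  rw [E_val (h3 p), exp_pt h1]

theorem continuous_E_on : Continuous (fun x : {x : Mt N // x ∈ (mF N).F 1} => E (x : Mt N)) := by
  rw [Units.continuous_iff]
  constructor
  · have e : (Units.val ∘ fun x : {x : Mt N // x ∈ (mF N).F 1} => E (x : Mt N)) =
        fun x : {x : Mt N // x ∈ (mF N).F 1} => J887.Ex N (x : Mt N) := by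
      funext x
      rw [Function.comp_apply, E_val x.2, (mF N).exp_eq x.2]
      rfl
    rw [e]
    exact J887.Ex_continuous.comp continuous_subtype_val
  · have e : (fun x : {x : Mt N // x ∈ (mF N).F 1} => (((E (x : Mt N))⁻¹ : (Mt N)ˣ) : Mt N)) =
        fun x : {x : Mt N // x ∈ (mF N).F 1} => J887.Ex N (-(x : Mt N)) := by
      funext x
      rw [E_inv_val x.2, (mF N).exp_eq (Submodule.neg_mem _ x.2)]
      rfl
    rw [e]
    exact J887.Ex_continuous.comp continuous_subtype_val.neg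

/-- the exponential as an element of the group -/
noncomputable def eh (C : Core N) (P : Fin d → Polynomial ℤ) (x : hh C P) : GG C P :=
  ⟨inc (fun p => E ((x : AF N d) p)), inc_mem C P x.2⟩

theorem continuous_eh (C : Core N) (P : Fin d → Polynomial ℤ)
    (hsup : ∀ x ∈ hh C P, ∀ p, x p ∈ (mF N).F 1) : Continuous (eh C P) := by
  refine Continuous.subtype_mk (BG.continuous_mk
    (f := fun x : hh C P => inc (fun p => E ((x : AF N d) p))) (fun p => ?_) continuous_const) _
  have h1 : Continuous fun x : hh C P =>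
      (⟨(x : AF N d) p, hsup x x.2 p⟩ : {x : Mt N // x ∈ (mF N).F 1}) :=
    Continuous.subtype_mk ((continuous_apply p).comp continuous_subtype_val) _
  exact continuous_E_on.comp h1

/-- `A` is linear -/
noncomputable def AfL (C : Core N) (P : Fin d → Polynomial ℤ) (h : ℤ) : Mt N →ₗ[ℝ] AF N d where
  toFun ξ := Af C P ξ h
  map_add' x y := by
    funext p
    simp only [Af, Pi.add_apply]
    rw [mul_add, add_mul]
  map_smul' t x := by
    funext p
    simp only [Af, Pi.smul_apply, RingHom.id_apply]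
    rw [mul_smul_comm, smul_mul_assoc]

/-- `B` is linear -/
noncomputable def BfL (C : Core N) (P : Fin d → Polynomial ℤ) (h : ℤ) : Mt N →ₗ[ℝ] AF N d where
  toFun ξ := Bf C P ξ h
  map_add' x y := by
    have e := (AfL C P h).map_add x y
    funext p
    have e' := congrFun e p
    simp only [AfL, LinearMap.coe_mk, AddHom.coe_mk, Pi.add_apply] at e'
    simp only [Bf, Pi.add_apply]
    rw [e', smul_add]
  map_smul' t x := by
    have e := (AfL C P h).map_smul t x
    funext p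
    have e' := congrFun e p
    simp only [AfL, LinearMap.coe_mk, AddHom.coe_mk, Pi.smul_apply] at e'
    simp only [Bf, Pi.smul_apply, RingHom.id_apply]
    rw [e', smul_comm]

theorem t_CPT : S_CPT := by
  intro hHHP hABM hGGM hCL hGEN N d C P H X _ _ x0 D k hk
  obtain ⟨M, hM1, hM⟩ := exists_M P
  obtain ⟨k1, k2, k3, k4, k5⟩ := hHHP N d M C P hM1 hM
  have hbr : ∀ x ∈ hh C P, ∀ y ∈ hh C P, x * y - y * x ∈ hh C P :=
    fun x hx y hy => lieSp_br _ hx hy
  have hsup : ∀ x ∈ hh C P, ∀ p, x p ∈ (mF N).F 1 := fun x hx p => C.sup _ (k1 x hx p)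
  have hγ : E C.Mc ∈ St (H := H) x0 := St_mem D.memc D.fix
  set s : Set (AF N d) := {x | ∃ ξ ∈ C.k, E ξ ∈ St (H := H) x0 ∧
    ∃ h : ℤ, x = Af C P ξ h ∨ x = Bf C P ξ h} with hsdef
  set L : Set (AF N d) := {x | x ∈ hh C P ∧ ∀ p, E (x p) ∈ St (H := H) x0} with hLdef
  have hs : hh C P = lieSp s := by
    apply le_antisymm
    · refine lieSp_le ?_ (fun x hx y hy => lieSp_br _ hx hy)
      rintro x ⟨ξ, hξ, h, hx⟩
      have hξ' := hGEN N C H X x0 D hξ
      rcases hx with rfl | rfl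
      · have h1 : Submodule.span ℝ {ξ | ξ ∈ C.k ∧ E ξ ∈ St (H := H) x0} ≤
            (lieSp s).comap (AfL C P h) := by
          rw [Submodule.span_le]
          rintro η ⟨hη, hη2⟩
          exact subset_lieSp _ ⟨η, hη, hη2, h, Or.inl rfl⟩
        exact h1 hξ'
      · have h1 : Submodule.span ℝ {ξ | ξ ∈ C.k ∧ E ξ ∈ St (H := H) x0} ≤
            (lieSp s).comap (BfL C P h) := by
          rw [Submodule.span_le]
          rintro η ⟨hη, hη2⟩
          exact subset_lieSp _ ⟨η, hη, hη2, h, Or.inr rfl⟩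
        exact h1 hξ'
    · refine lieSp_le ?_ hbr
      rintro x ⟨ξ, hξ, -, h, hx⟩
      exact subset_lieSp _ ⟨ξ, hξ, h, hx⟩
  have hA : ∀ ξ ∈ C.k, E ξ ∈ St (H := H) x0 → ∀ (h : ℤ) (p : ℤ × Fin d),
      E (Af C P ξ h p) ∈ St (H := H) x0 := by
    intro ξ hξ hξ2 h p
    have hA1 : Af C P ξ h ∈ hh C P := subset_lieSp _ ⟨ξ, hξ, h, Or.inl rfl⟩
    have h2 := hsup _ hA1 p
    have e1 : Af C P ξ h p = ((E C.Mc ^ ((P p.2).eval (p.1 + h)) : (Mt N)ˣ) : Mt N) * ξ *
      (((E C.Mc ^ ((P p.2).eval (p.1 + h)))⁻¹ : (Mt N)ˣ) : Mt N) := by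
      simp only [Af, zpow_neg]
    rw [e1] at h2 ⊢
    rw [← conj_E _ (C.sup ξ hξ) h2]
    exact (St (H := H) x0).mul_mem ((St (H := H) x0).mul_mem ((St (H := H) x0).zpow_mem hγ _) hξ2)
      ((St (H := H) x0).inv_mem ((St (H := H) x0).zpow_mem hγ _))
  have hsL : s ⊆ L := by
    rintro x ⟨ξ, hξ, hξ2, h, hx⟩
    refine ⟨subset_lieSp _ ⟨ξ, hξ, h, hx⟩, fun p => ?_⟩
    have hA1 : Af C P ξ h ∈ hh C P := subset_lieSp _ ⟨ξ, hξ, h, Or.inl rfl⟩
    rcases hx with rfl | rfl
    · exact hA ξ hξ hξ2 h p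
    · have e : E (Bf C P ξ h p) = E (Af C P ξ h p) ^ ((P p.2).derivative.eval (p.1 + h)) := by
        rw [E_zpow (hsup _ hA1 p)]
        rfl
      rw [e]
      exact (St (H := H) x0).zpow_mem (hA ξ hξ hξ2 h p) _
  obtain ⟨n, K, hKc, hKh, hdec⟩ := hCL N d M (hh C P) k5 k2 s L hs hsL (fun x hx => hx.1)
    ⟨Submodule.zero_mem _, fun p => by
      rw [Pi.zero_apply, E_zero]
      exact (St (H := H) x0).one_mem⟩
    (fun x hx => ⟨(hh C P).neg_mem hx.1, fun p => by
      rw [Pi.neg_apply, E_neg (hsup _ hx.1 p)]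
      exact (St (H := H) x0).inv_mem (hx.2 p)⟩)
    (fun x hx y hy => by
      obtain ⟨z, hz, h1, h2⟩ := E_mul_E' k2 hsup hbr hx.1 hy.1
      refine ⟨z, ⟨hz, fun p => ?_⟩, h1⟩
      rw [← h2 p]
      exact (St (H := H) x0).mul_mem (hx.2 p) (hy.2 p))
  -- the compact set
  set K1 : Set (hh C P) := {x | (x : AF N d) ∈ K} with hK1
  have hK1c : IsCompact K1 := by
    rw [Subtype.isCompact_iff]
    have e : (Subtype.val '' K1) = K := by
      ext x
      constructor
      · rintro ⟨y, hy, rfl⟩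
        exact hy
      · intro hx
        exact ⟨⟨x, hKh x hx⟩, hx, rfl⟩
    rw [e]
    exact hKc
  let Ψ : (Fin n → hh C P) × Fin k → GG C P := fun q =>
    ((List.finRange n).map fun i => eh C P (q.1 i)).prod *
      ⟨shf (Multiplicative.ofAdd ((q.2 : ℕ) : ℤ)), shf_mem C P _⟩
  have hΨ : Continuous Ψ := by
    refine Continuous.mul ?_ ?_
    · refine continuous_list_prod _ fun i _ => ?_
      exact (continuous_eh C P hsup).comp ((continuous_apply i).comp continuous_fst)
    · have h1 : Continuous fun r : Fin k =>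
          (⟨shf (Multiplicative.ofAdd ((r : ℕ) : ℤ)), shf_mem C P _⟩ : GG C P) :=
        continuous_of_discreteTopology
      exact h1.comp continuous_snd
  refine ⟨Ψ '' ((Set.univ.pi fun _ => K1) ×ˢ Set.univ),
    ((isCompact_univ_pi fun _ => hK1c).prod isCompact_univ).image hΨ, fun x => ?_⟩
  obtain ⟨F, hF, m, hx⟩ := (hGGM hHHP N d C P x).1 x.2
  obtain ⟨c, y, hc, hy, he⟩ := hdec F hF
  have hk0 : (k : ℤ) ≠ 0 := by exact_mod_cast hk.ne'
  have hr0 := Int.emod_nonneg (x : BG N d).s hk0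
  have hrk := Int.emod_lt_of_pos (x : BG N d).s (by exact_mod_cast hk : (0 : ℤ) < k)
  obtain ⟨r, hr⟩ := Int.eq_ofNat_of_zero_le hr0
  have hrk' : r < k := by
    rw [hr] at hrk
    exact_mod_cast hrk
  set cc : Fin n → hh C P := fun i => ⟨c i, hKh _ (hc i)⟩ with hcc
  refine ⟨Ψ (cc, ⟨r, hrk'⟩), ⟨(cc, ⟨r, hrk'⟩), ⟨fun i _ => hc i, trivial⟩, rfl⟩,
    (Ψ (cc, ⟨r, hrk'⟩))⁻¹ * x, ?_, (mul_inv_cancel_left _ _).symm⟩
  -- the identity in the big group
  have e1 : (fun p => E (F p)) =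
      (List.ofFn fun i => (fun p => E (c i p) : ℤ × Fin d → (Mt N)ˣ)).prod *
        (fun p => E (y p)) := by
    apply kap_inj
    rw [map_mul, map_list_prod, List.map_ofFn, kap_E (k2 F hF) (hsup F hF),
      kap_E (k2 y hy.1) (hsup y hy.1), he]
    congr 2
    congr 1
    funext i
    rw [Function.comp_apply, kap_E (k2 _ (hKh _ (hc i))) (hsup _ (hKh _ (hc i)))]
  have e2 : ((((List.finRange n).map fun i => eh C P (cc i)).prod : GG C P) : BG N d) =
      inc ((List.ofFn fun i => (fun p => E (c i p) : ℤ × Fin d → (Mt N)ˣ)).prod) := by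
    rw [map_list_prod, ← List.ofFn_eq_map, List.map_ofFn]
    have := map_list_prod (GG C P).subtype (List.ofFn fun i => eh C P (cc i))
    rw [List.map_ofFn] at this
    exact this
  have e3 : (x : BG N d) = inc ((List.ofFn fun i => (fun p => E (c i p) : ℤ × Fin d → (Mt N)ˣ)).prod) *
      inc (fun p => E (y p)) * cst (E C.Mc) ^ m * shf (Multiplicative.ofAdd (x : BG N d).s) := by
    rw [← map_mul, ← e1]
    exact decomp hx
  have e4 : (((Ψ (cc, ⟨r, hrk'⟩))⁻¹ * x : GG C P) : BG N d) =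
      shf (Multiplicative.ofAdd (-(r : ℤ))) * inc (fun p => E (y p)) * cst (E C.Mc) ^ m *
        shf (Multiplicative.ofAdd (x : BG N d).s) := by
    rw [Subgroup.coe_mul, Subgroup.coe_inv]
    change (((((List.finRange n).map fun i => eh C P (cc i)).prod : GG C P) : BG N d) *
      shf (Multiplicative.ofAdd ((r : ℕ) : ℤ)))⁻¹ * (x : BG N d) = _
    rw [e2, mul_inv_rev, ← map_inv shf, ← ofAdd_neg]
    conv_lhs => rw [e3]
    group
  rw [← map_zpow] at e4
  constructor
  · intro p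
    rw [e4, BG.mul_u, BG.mul_u, BG.mul_u, shf_u, shf_u, cst_u, inc_u, one_mul, mul_one]
    exact (St (H := H) x0).mul_mem (hy.2 _) ((St (H := H) x0).zpow_mem hγ m)
  · rw [e4, BG.mul_s, BG.mul_s, BG.mul_s, shf_s, shf_s, cst_s, inc_s]
    simp only [toAdd_ofAdd, add_zero]
    have h5 : -(r : ℤ) + (x : BG N d).s = k * ((x : BG N d).s / k) := by
      have := Int.emod_add_mul_ediv (x : BG N d).s k
      rw [hr] at this
      push_cast at this ⊢
      linarith
    rw [h5]
    exact dvd_mul_right _ _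

end Run7.h171.NL
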