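import Pool.Agent.Run7.h664.NL.Iface

set_option autoImplicit false

namespace Run7.h171.NL

open Run7.h664.NL
open Finset Filter Topology Pool.Agent.TH91.RF Pool.Agent.TH91.NB Pool.Agent.TH91.LG

variable {N d : ℕ}

theorem smul_F {x : Mt N} {k : ℕ} (hx : x ∈ (mF N).F k) (t : ℝ) : t • x ∈ (mF N).F k :=
  (J887.FR N k).smul_mem t hx

theorem E_zero : (E (0 : Mt N)) = 1 := by
  apply Units.ext
  rw [E_val (Submodule.zero_mem _), IsNilpotent.exp_zero, Units.val_one]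

theorem E_neg {x : Mt N} (hx : x ∈ (mF N).F 1) : E (-x) = (E x)⁻¹ := by
  apply Units.ext
  rw [E_val (Submodule.neg_mem _ hx), E_inv_val hx]

theorem E_zpow {x : Mt N} (hx : x ∈ (mF N).F 1) (k : ℤ) : E x ^ k = E ((k : ℝ) • x) := by
  apply Units.ext
  rw [E_val (smul_F hx k)]
  unfold E
  rw [dif_pos hx]
  exact J1261.ue_zpow x hx k

theorem E_inj {x y : Mt N} (hx : x ∈ (mF N).F 1) (hy : y ∈ (mF N).F 1) (h : E x = E y) : x = y := by
  have := congrArg (fun u : (Mt N)ˣ => (u : Mt N)) h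
  simp only [E_val hx, E_val hy] at this
  exact (mF N).exp_inj hx hy this

/-- a real subspace closed under the bracket is a lattice in the sense of the library -/
theorem lat_of {A : Type*} [Ring A] [Algebra ℝ A] [Algebra ℚ A] {n : ℕ} (Φ : Filt A n)
    (W : Submodule ℝ A) (h1 : ∀ x ∈ W, x ∈ Φ.F 1)
    (h2 : ∀ x ∈ W, ∀ y ∈ W, x * y - y * x ∈ W) : LieLat Φ W.toAddSubgroup :=
  ⟨fun x hx => h1 x hx, fun u hu v hv => rat_smul_mem W _ (h2 u hu v hv)⟩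

/-- the exponential is computed pointwise -/
theorem exp_pt {M : ℕ} {x : AF N d} (hx : x ∈ (wtF N d M).F 1) (p : ℤ × Fin d) :
    (IsNilpotent.exp x) p = IsNilpotent.exp (x p) :=
  IsNilpotent.map_exp ((wtF N d M).nilp hx) (Pi.evalRingHom (fun _ : ℤ × Fin d => Mt N) p)

theorem conj_E (a : (Mt N)ˣ) {x : Mt N} (hx : x ∈ (mF N).F 1)
    (hax : (a : Mt N) * x * ((a⁻¹ : (Mt N)ˣ) : Mt N) ∈ (mF N).F 1) :
    a * E x * a⁻¹ = E ((a : Mt N) * x * ((a⁻¹ : (Mt N)ˣ) : Mt N)) := by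
  apply Units.ext
  rw [E_val hax, exp_conj (Units.mul_inv a) (Units.inv_mul a) ((mF N).nilp hx), Units.val_mul,
    Units.val_mul, E_val hx]

/-- the product of two elements of `exp k` -/
theorem E_mul_E {W : Submodule ℝ (Mt N)} (h1 : ∀ x ∈ W, x ∈ (mF N).F 1)
    (h2 : ∀ x ∈ W, ∀ y ∈ W, x * y - y * x ∈ W) {x y : Mt N} (hx : x ∈ W) (hy : y ∈ W) :
    ∃ z ∈ W, E x * E y = E z := by
  obtain ⟨z, hz, h⟩ := (lat_of (mF N) W h1 h2).exp_mul hx hy
  refine ⟨z, hz, Units.ext ?_⟩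
  rw [Units.val_mul, E_val (h1 x hx), E_val (h1 y hy), E_val (h1 z hz), h]

/-- the product of two elements of `exp h` in the algebra of sequences -/
theorem E_mul_E' {M : ℕ} {W : Submodule ℝ (AF N d)} (h1 : ∀ x ∈ W, x ∈ (wtF N d M).F 1)
    (h3 : ∀ x ∈ W, ∀ p, x p ∈ (mF N).F 1)
    (h2 : ∀ x ∈ W, ∀ y ∈ W, x * y - y * x ∈ W) {x y : AF N d} (hx : x ∈ W) (hy : y ∈ W) :
    ∃ z ∈ W, IsNilpotent.exp x * IsNilpotent.exp y = IsNilpotent.exp z ∧
      ∀ p, E (x p) * E (y p) = E (z p) := by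
  obtain ⟨z, hz, h⟩ := (lat_of (wtF N d M) W h1 h2).exp_mul hx hy
  refine ⟨z, hz, h, fun p => Units.ext ?_⟩
  have hp := congrFun h p
  rw [Pi.mul_apply, exp_pt (h1 x hx), exp_pt (h1 y hy), exp_pt (h1 z hz)] at hp
  rw [Units.val_mul, E_val (h3 x hx p), E_val (h3 y hy p), E_val (h3 z hz p), hp]

/-- a bound for the degrees -/
theorem exists_M (P : Fin d → Polynomial ℤ) : ∃ M : ℕ, 1 ≤ M ∧ ∀ i, (P i).natDegree ≤ M := by
  refine ⟨1 + ∑ i, (P i).natDegree, by omega, fun i => ?_⟩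
  have := Finset.single_le_sum (f := fun i => (P i).natDegree) (fun _ _ => Nat.zero_le _)
    (Finset.mem_univ i)
  omega

end Run7.h171.NL
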