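import Pool.Agent.Run7.h171.NL.Com

set_option autoImplicit false

namespace Run7.h171.NL

open Run7.h664.NL
open Finset Filter Topology Pool.Agent.TH91.RF Pool.Agent.TH91.NB Pool.Agent.TH91.LG

variable {N d : ℕ}

/-- sequences as elements of the big group -/
def inc : (ℤ × Fin d → (Mt N)ˣ) →* BG N d where
  toFun u := ⟨u, 0⟩
  map_one' := rfl
  map_mul' u v := by
    apply BG.ext
    · funext p
      rw [BG.mul_u]
      simp
    · rw [BG.mul_s, add_zero]

/-- the shifts as elements of the big group -/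
def shf : Multiplicative ℤ →* BG N d where
  toFun n := ⟨fun _ => 1, Multiplicative.toAdd n⟩
  map_one' := rfl
  map_mul' u v := by
    apply BG.ext
    · funext p
      rw [BG.mul_u, mul_one]
    · rw [BG.mul_s, toAdd_mul]

/-- the constants as elements of the big group -/
def cst : (Mt N)ˣ →* BG N d where
  toFun a := ⟨fun _ => a, 0⟩
  map_one' := rfl
  map_mul' u v := by
    apply BG.ext
    · funext p
      rw [BG.mul_u]
    · rw [BG.mul_s, add_zero]

theorem cst_u (a : (Mt N)ˣ) (p : ℤ × Fin d) : (cst (N := N) (d := d) a).u p = a := rfl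
theorem cst_s (a : (Mt N)ˣ) : (cst (N := N) (d := d) a).s = 0 := rfl
theorem inc_u (a : ℤ × Fin d → (Mt N)ˣ) (p : ℤ × Fin d) : (inc a).u p = a p := rfl
theorem inc_s (a : ℤ × Fin d → (Mt N)ˣ) : (inc a).s = 0 := rfl
theorem shf_u (n : Multiplicative ℤ) (p : ℤ × Fin d) : (shf (N := N) (d := d) n).u p = 1 := rfl
theorem shf_s (n : Multiplicative ℤ) : (shf (N := N) (d := d) n).s = Multiplicative.toAdd n := rfl

/-- the decomposition of an element -/
theorem decomp {F : AF N d} {c : Mt N} {x : BG N d} {m : ℤ}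
    (h : ∀ p, x.u p = E (F p) * E c ^ m) :
    x = inc (fun p => E (F p)) * cst (E c) ^ m * shf (Multiplicative.ofAdd x.s) := by
  rw [← map_zpow]
  apply BG.ext
  · funext p
    rw [BG.mul_u, BG.mul_u, h, shf_u, cst_u, inc_u, mul_one]
  · rw [BG.mul_s, BG.mul_s, inc_s, cst_s, shf_s]
    simp

theorem inc_mem (C : Core N) (P : Fin d → Polynomial ℤ) {F : AF N d} (hF : F ∈ hh C P) :
    inc (fun p => E (F p)) ∈ GG C P :=
  Subgroup.subset_closure (Or.inl (Or.inl ⟨F, hF, rfl⟩))

theorem cst_mem (C : Core N) (P : Fin d → Polynomial ℤ) : cst (E C.Mc) ∈ GG C P :=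
  Subgroup.subset_closure (Or.inl (Or.inr rfl))

theorem shf_mem (C : Core N) (P : Fin d → Polynomial ℤ) (n : ℤ) :
    shf (Multiplicative.ofAdd n) ∈ GG C P := by
  have h : shf (N := N) (d := d) (Multiplicative.ofAdd 1) ∈ GG C P :=
    Subgroup.subset_closure (Or.inr rfl)
  have e : shf (N := N) (d := d) (Multiplicative.ofAdd n) =
      shf (N := N) (d := d) (Multiplicative.ofAdd 1) ^ n := by
    rw [← map_zpow, ← ofAdd_zsmul, smul_eq_mul, mul_one]
  rw [e]
  exact (GG C P).zpow_mem h n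

theorem t_GGM : S_GGM := by
  intro hHHP N d C P x
  obtain ⟨M, hM1, hM⟩ := exists_M P
  obtain ⟨k1, k2, k3, k4, -⟩ := hHHP N d M C P hM1 hM
  have hbr : ∀ x ∈ hh C P, ∀ y ∈ hh C P, x * y - y * x ∈ hh C P :=
    fun x hx y hy => lieSp_br _ hx hy
  have hsup : ∀ x ∈ hh C P, ∀ p, x p ∈ (mF N).F 1 := fun x hx p => C.sup _ (k1 x hx p)
  constructor
  · intro hx
    unfold GG at hx
    induction hx using Subgroup.closure_induction with
    | mem x hx =>
      rcases hx with (⟨F, hF, rfl⟩ | hx) | hx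
      · exact ⟨F, hF, 0, fun p => by rw [zpow_zero, mul_one]⟩
      · rw [Set.mem_singleton_iff] at hx
        subst hx
        refine ⟨0, Submodule.zero_mem _, 1, fun p => ?_⟩
        rw [zpow_one, Pi.zero_apply, E_zero, one_mul]
      · rw [Set.mem_singleton_iff] at hx
        subst hx
        refine ⟨0, Submodule.zero_mem _, 0, fun p => ?_⟩
        rw [zpow_zero, Pi.zero_apply, E_zero, one_mul]
    | one =>
      refine ⟨0, Submodule.zero_mem _, 0, fun p => ?_⟩
      rw [zpow_zero, Pi.zero_apply, E_zero, one_mul]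
      rfl
    | mul x y hx hy ihx ihy =>
      obtain ⟨F, hF, m, h⟩ := ihx
      obtain ⟨F', hF', m', h'⟩ := ihy
      have hF1 := k4 _ (k3 _ hF' x.s) m
      obtain ⟨z, hz, -, hzz⟩ := E_mul_E' k2 hsup hbr hF hF1
      refine ⟨z, hz, m + m', fun p => ?_⟩
      have h1 := hsup _ hF1 p
      simp only [sh_apply, zpow_neg] at h1
      have e := conj_E (E C.Mc ^ m) (hsup _ hF' (p.1 + x.s, p.2)) h1
      have e2 := hzz p
      simp only [sh_apply, zpow_neg] at e2
      rw [← e] at e2
      rw [BG.mul_u, h, h', ← e2, zpow_add]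
      group
    | inv x hx ih =>
      obtain ⟨F, hF, m, h⟩ := ih
      have hF1 := k4 _ ((hh C P).neg_mem (k3 _ hF (-x.s))) (-m)
      refine ⟨_, hF1, -m, fun p => ?_⟩
      have h1 := hsup _ hF1 p
      have h2 := hsup _ ((hh C P).neg_mem (k3 _ hF (-x.s))) p
      have e := conj_E (E C.Mc ^ (-m)) h2 (by rw [← zpow_neg]; exact h1)
      rw [zpow_neg, inv_inv, ← zpow_neg] at e
      rw [BG.inv_u, h]
      simp only [neg_neg] at *
      rw [← e, Pi.neg_apply, E_neg (hsup _ (k3 _ hF (-x.s)) p), sh_apply, ← sub_eq_add_neg,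
        zpow_neg, mul_inv_rev]
      group
  · rintro ⟨F, hF, m, h⟩
    rw [decomp h]
    exact (GG C P).mul_mem ((GG C P).mul_mem (inc_mem C P hF) ((GG C P).zpow_mem (cst_mem C P) m))
      (shf_mem C P _)

end Run7.h171.NL
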